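import Mathlib

/-!
# MP_d39bc3_gt, Q1: the section-centroid collinearity property does not characterise quadrics

For every `n ≥ 2` the domain `T = {x ∈ ℝ^{n+1} : x_i > 0, ∏ x_i > 1}` bounded by the Țițeica
hypersurface `∏ x_i = 1` is a strictly convex domain with smooth boundary which has the
section-centroid collinearity property (SCCP), but its boundary is not an ellipsoid, not an elliptic
paraboloid and not a sheet of a two-sheeted hyperboloid.

Reason for SCCP: if the sections parallel to `M = u^⊥` are bounded then all `u_i` have the same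
sign, and for `i ≠ j` the linear involution exchanging `u_i x_i` and `u_j x_j` preserves `T` and every
hyperplane parallel to `M`, hence fixes the centroids; so they lie on the line spanned by
`(1/u_1, …, 1/u_{n+1})`.
-/

namespace Pool.Agent.Results.MP_d39bc3_gt.TiteicaDomain

open MeasureTheory Module Set
open scoped ENNReal ContDiff InnerProductSpace

/-- Euclidean space `ℝ^{n+1}`. -/
abbrev E (n : ℕ) := EuclideanSpace ℝ (Fin (n + 1))

/-- The section `(x + M) ∩ Ω`. -/
def sect {n : ℕ} (Ω : Set (E n)) (M : Submodule ℝ (E n)) (x : E n) : Set (E n) :=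
  {y | y ∈ Ω ∧ y - x ∈ M}

/-- The centroid of `S` with respect to the `n`-dimensional Hausdorff measure on `ℝ^{n+1}`: the
average of the identity over `S`. -/
noncomputable def centroid {n : ℕ} (S : Set (E n)) : E n := ⨍ y in S, y ∂μH[(n : ℝ)]

/-- The section-centroid collinearity property of an open set `Ω`: for every `n`-dimensional linear
subspace `M` such that the sections `(x + M) ∩ Ω` are bounded, the centroids of all nonempty
sections `(x + M) ∩ Ω` lie on a single line. -/
def SCCP {n : ℕ} (Ω : Set (E n)) : Prop :=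
  ∀ M : Submodule ℝ (E n), finrank ℝ M = n → (∀ x, Bornology.IsBounded (sect Ω M x)) →
    ∃ l : AffineSubspace ℝ (E n), finrank ℝ l.direction = 1 ∧
      ∀ x, (sect Ω M x).Nonempty → centroid (sect Ω M x) ∈ l

/-- `Ω` has smooth boundary: near every boundary point `p` it is the region `f > 0` of a `C^∞`
function `f` with `f p = 0` and non-vanishing derivative at `p`. -/
def HasSmoothBoundary {n : ℕ} (Ω : Set (E n)) : Prop :=
  ∀ p ∈ frontier Ω, ∃ (U : Set (E n)) (f : E n → ℝ), IsOpen U ∧ p ∈ U ∧ ContDiff ℝ ∞ f ∧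
    f p = 0 ∧ fderiv ℝ f p ≠ 0 ∧ Ω ∩ U = {x | x ∈ U ∧ 0 < f x}

/-- The unit sphere of `ℝ^{n+1}`. -/
def stdSphere (n : ℕ) : Set (E n) := {x | ∑ i, x i ^ 2 = 1}

/-- The standard elliptic paraboloid `x_{n+1} = x_1² + ⋯ + x_n²`. -/
def stdParaboloid (n : ℕ) : Set (E n) := {x | x (Fin.last n) = ∑ i : Fin n, x i.castSucc ^ 2}

/-- One sheet of the standard two-sheeted hyperboloid:
`x_{n+1} > 0`, `x_{n+1}² = 1 + x_1² + ⋯ + x_n²`. -/
def stdSheet (n : ℕ) : Set (E n) :=
  {x | 0 < x (Fin.last n) ∧ x (Fin.last n) ^ 2 = 1 + ∑ i : Fin n, x i.castSucc ^ 2}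

/-- `S` is the image of `Q` under an invertible affine map. -/
def IsAffineImage {n : ℕ} (S Q : Set (E n)) : Prop := ∃ A : E n ≃ᵃ[ℝ] E n, S = A '' Q

/-! ### The domain -/

/-- the Țițeica domain -/
def T (n : ℕ) : Set (E n) := {x | (∀ i, 0 < x i) ∧ 1 < ∏ i, x i}

/-- its closure -/
def Tc (n : ℕ) : Set (E n) := {x | (∀ i, 0 ≤ x i) ∧ 1 ≤ ∏ i, x i}

theorem isOpen_T (n : ℕ) : IsOpen (T n) := by
  have e : T n = (⋂ i, {x : E n | 0 < x i}) ∩ {x : E n | 1 < ∏ i, x i} := by
    ext x; simp [T]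
  rw [e]
  refine IsOpen.inter (isOpen_iInter_of_finite fun i => isOpen_lt (by fun_prop) (by fun_prop)) ?_
  exact isOpen_lt (by fun_prop) (by fun_prop)

theorem isClosed_Tc (n : ℕ) : IsClosed (Tc n) := by
  have e : Tc n = (⋂ i, {x : E n | 0 ≤ x i}) ∩ {x : E n | 1 ≤ ∏ i, x i} := by
    ext x; simp [Tc]
  rw [e]
  refine IsClosed.inter (isClosed_iInter fun i => isClosed_le (by fun_prop) (by fun_prop)) ?_
  exact isClosed_le (by fun_prop) (by fun_prop)

theorem Tc_pos {n : ℕ} {x : E n} (hx : x ∈ Tc n) (i : Fin (n + 1)) : 0 < x i := by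
  obtain ⟨h0, h1⟩ := hx
  rcases (h0 i).lt_or_eq with h | h
  · exact h
  · exfalso
    have : ∏ i, x i = 0 := Finset.prod_eq_zero (Finset.mem_univ i) h.symm
    linarith

theorem T_sub_Tc (n : ℕ) : T n ⊆ Tc n := fun _ hx => ⟨fun i => (hx.1 i).le, hx.2.le⟩

theorem scale_mem {n : ℕ} {x : E n} (hx : x ∈ Tc n) {s : ℝ} (hs : 1 < s) : s • x ∈ T n := by
  have hp := Tc_pos hx
  refine ⟨fun i => ?_, ?_⟩
  · rw [PiLp.smul_apply, smul_eq_mul]
    exact mul_pos (by linarith) (hp i)
  · have e : ∏ i, (s • x) i = s ^ (n + 1) * ∏ i, x i := by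
      simp only [PiLp.smul_apply, smul_eq_mul]
      rw [Finset.prod_mul_distrib, Finset.prod_const, Finset.card_univ, Fintype.card_fin]
    rw [e]
    have h1 : 1 < s ^ (n + 1) := one_lt_pow₀ hs (by omega)
    have h2 := hx.2
    nlinarith

theorem closure_T (n : ℕ) : closure (T n) = Tc n := by
  apply Subset.antisymm
  · exact closure_minimal (T_sub_Tc n) (isClosed_Tc n)
  · intro x hx
    have ht : Filter.Tendsto (fun s : ℝ => s • x) (nhdsWithin 1 (Ioi 1)) (nhds x) := by
      have : Filter.Tendsto (fun s : ℝ => s • x) (nhds 1) (nhds ((1 : ℝ) • x)) := by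
        apply Continuous.tendsto
        fun_prop
      rw [one_smul] at this
      exact this.mono_left nhdsWithin_le_nhds
    refine mem_closure_of_tendsto ht ?_
    filter_upwards [self_mem_nhdsWithin] with s hs
    exact scale_mem hx hs

theorem frontier_T (n : ℕ) : frontier (T n) = {x | (∀ i, 0 < x i) ∧ ∏ i, x i = 1} := by
  rw [frontier, closure_T, (isOpen_T n).interior_eq]
  ext x
  constructor
  · rintro ⟨hx, hn⟩
    have hp := Tc_pos hx
    refine ⟨hp, ?_⟩
    by_contra hne
    exact hn ⟨hp, lt_of_le_of_ne hx.2 (Ne.symm hne)⟩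
  · rintro ⟨hp, h1⟩
    refine ⟨⟨fun i => (hp i).le, h1.ge⟩, ?_⟩
    rintro ⟨_, h2⟩
    exact absurd h1 h2.ne'

theorem strict {n : ℕ} {x y : E n} (hx : x ∈ Tc n) (hy : y ∈ Tc n) (hxy : x ≠ y) {a b : ℝ}
    (ha : 0 < a) (hb : 0 < b) (hab : a + b = 1) : a • x + b • y ∈ T n := by
  have hxp := Tc_pos hx
  have hyp := Tc_pos hy
  have hpos : ∀ i, 0 < (a • x + b • y) i := by
    intro i
    simp only [PiLp.add_apply, PiLp.smul_apply, smul_eq_mul]
    have := mul_pos ha (hxp i)
    have := mul_pos hb (hyp i)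
    linarith
  refine ⟨hpos, ?_⟩
  have hprod : 0 < ∏ i, (a • x + b • y) i := Finset.prod_pos fun i _ => hpos i
  rw [← Real.log_pos_iff hprod.le]
  rw [Real.log_prod (fun i _ => (hpos i).ne')]
  have hlx : 0 ≤ ∑ i, Real.log (x i) := by
    rw [← Real.log_prod (fun i _ => (hxp i).ne')]
    exact Real.log_nonneg hx.2
  have hly : 0 ≤ ∑ i, Real.log (y i) := by
    rw [← Real.log_prod (fun i _ => (hyp i).ne')]
    exact Real.log_nonneg hy.2
  obtain ⟨j, hj⟩ : ∃ j, x j ≠ y j := by
    by_contra h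
    push Not at h
    apply hxy
    ext i
    exact h i
  have hle : ∀ i ∈ (Finset.univ : Finset (Fin (n + 1))),
      a * Real.log (x i) + b * Real.log (y i) ≤ Real.log ((a • x + b • y) i) := by
    intro i _
    have := strictConcaveOn_log_Ioi.concaveOn.2 (mem_Ioi.2 (hxp i)) (mem_Ioi.2 (hyp i))
      ha.le hb.le hab
    simpa [smul_eq_mul] using this
  have hlt : ∃ i ∈ (Finset.univ : Finset (Fin (n + 1))),
      a * Real.log (x i) + b * Real.log (y i) < Real.log ((a • x + b • y) i) := by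
    refine ⟨j, Finset.mem_univ _, ?_⟩
    have := strictConcaveOn_log_Ioi.2 (mem_Ioi.2 (hxp j)) (mem_Ioi.2 (hyp j)) hj ha hb hab
    simpa [smul_eq_mul] using this
  have h := Finset.sum_lt_sum hle hlt
  rw [Finset.sum_add_distrib, ← Finset.mul_sum, ← Finset.mul_sum] at h
  have h1 := mul_nonneg ha.le hlx
  have h2 := mul_nonneg hb.le hly
  linarith

theorem strictConvex_closure (n : ℕ) : StrictConvex ℝ (closure (T n)) := by
  rw [closure_T]
  intro x hx y hy hxy a b ha hb hab
  exact interior_maximal (T_sub_Tc n) (isOpen_T n) (strict hx hy hxy ha hb hab)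

theorem convex_T (n : ℕ) : Convex ℝ (T n) := by
  intro x hx y hy a b ha hb hab
  by_cases hxy : x = y
  · subst hxy
    rw [← add_smul, hab, one_smul]
    exact hx
  · rcases ha.lt_or_eq with ha' | ha'
    · rcases hb.lt_or_eq with hb' | hb'
      · exact strict (T_sub_Tc n hx) (T_sub_Tc n hy) hxy ha' hb' hab
      · subst hb'
        have : a = 1 := by linarith
        subst this
        simpa using hx
    · subst ha'
      have : b = 1 := by linarith
      subst this
      simpa using hy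

theorem smooth_f (n : ℕ) : ContDiff ℝ ∞ (fun x : E n => ∏ i, x i - 1) := by
  apply ContDiff.sub _ contDiff_const
  apply contDiff_prod
  intro i _
  fun_prop

theorem smoothBoundary (n : ℕ) : HasSmoothBoundary (T n) := by
  intro p hp
  rw [frontier_T] at hp
  obtain ⟨hp, h1⟩ := hp
  refine ⟨{x | ∀ i, 0 < x i}, fun x => ∏ i, x i - 1, ?_, hp, smooth_f n, by simp [h1], ?_, ?_⟩
  · have e : {x : E n | ∀ i, 0 < x i} = ⋂ i, {x : E n | 0 < x i} := by ext x; simp
    rw [e]
    exact isOpen_iInter_of_finite fun i => isOpen_lt (by fun_prop) (by fun_prop)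
  · intro h0
    have hd : HasFDerivAt (fun x : E n => ∏ i, x i - 1) (0 : E n →L[ℝ] ℝ) p := by
      rw [← h0]
      exact ((smooth_f n).differentiable (by simp)).differentiableAt.hasFDerivAt
    have hc : HasDerivAt (fun t : ℝ => p + t • p) p 0 := by
      have := (hasDerivAt_id (0 : ℝ)).smul_const p
      simpa using this.const_add p
    have hcomp : HasDerivAt (fun t : ℝ => ∏ i, (p + t • p) i - 1) 0 0 := by
      have hd' : HasFDerivAt (fun x : E n => ∏ i, x i - 1) (0 : E n →L[ℝ] ℝ) (p + (0 : ℝ) • p) := by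
        simpa using hd
      have := hd'.comp_hasDerivAt (0 : ℝ) hc
      simpa [Function.comp_def] using this
    have hexp : (fun t : ℝ => ∏ i, (p + t • p) i - 1) = fun t : ℝ => (1 + t) ^ (n + 1) - 1 := by
      funext t
      have : ∀ i, (p + t • p) i = (1 + t) * p i := by
        intro i
        simp only [PiLp.add_apply, PiLp.smul_apply, smul_eq_mul]
        ring
      simp only [this]
      rw [Finset.prod_mul_distrib, Finset.prod_const, Finset.card_univ, Fintype.card_fin, h1,
        mul_one]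
    rw [hexp] at hcomp
    have h2 : HasDerivAt (fun t : ℝ => (1 + t) ^ (n + 1) - 1) ((n + 1 : ℕ) : ℝ) 0 := by
      have := (((hasDerivAt_id (0 : ℝ)).const_add 1).pow (n + 1)).sub_const 1
      simpa using this
    have h3 := hcomp.unique h2
    have : (0 : ℝ) < ((n + 1 : ℕ) : ℝ) := by positivity
    linarith
  · ext x
    simp only [T, mem_inter_iff, mem_ofPred_eq]
    constructor
    · rintro ⟨⟨_, h2⟩, h3⟩
      exact ⟨h3, by linarith⟩
    · rintro ⟨h2, h3⟩
      exact ⟨⟨h2, by linarith⟩, h2⟩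

/-! ### The section-centroid collinearity property -/

theorem inner_sum {n : ℕ} (u y : E n) : ⟪u, y⟫_ℝ = ∑ k, u k * y k := by
  rw [PiLp.inner_apply]
  refine Finset.sum_congr rfl fun k _ => ?_
  rw [real_inner_eq_re_inner]
  simp [mul_comm]

/-- a subspace with bounded sections of `T` contains no nonzero nonnegative vector -/
theorem no_nonneg {n : ℕ} {M : Submodule ℝ (E n)}
    (hbd : ∀ x, Bornology.IsBounded (sect (T n) M x)) {d : E n} (hd : d ∈ M)
    (h0 : ∀ k, 0 ≤ d k) : d = 0 := by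
  by_contra hne
  obtain ⟨j, hj⟩ : ∃ j, d j ≠ 0 := by
    by_contra h
    push Not at h
    exact hne (by ext k; simpa using h k)
  have hjp : 0 < d j := lt_of_le_of_ne (h0 j) (Ne.symm hj)
  set x0 : E n := WithLp.toLp 2 (fun _ => (2 : ℝ)) with hx0
  obtain ⟨C, hC⟩ := (hbd x0).exists_norm_le
  have hmem : ∀ s : ℝ, 0 ≤ s → x0 + s • d ∈ sect (T n) M x0 := by
    intro s hs
    have hk : ∀ k, (2 : ℝ) ≤ (x0 + s • d) k := by
      intro k
      have := mul_nonneg hs (h0 k)
      simp only [PiLp.add_apply, PiLp.smul_apply, smul_eq_mul, hx0]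
      linarith
    refine ⟨⟨fun k => by linarith [hk k], ?_⟩, ?_⟩
    · have h1 : ∏ _k : Fin (n + 1), (2 : ℝ) ≤ ∏ k, (x0 + s • d) k :=
        Finset.prod_le_prod (fun _ _ => by norm_num) fun k _ => hk k
      rw [Finset.prod_const, Finset.card_univ, Fintype.card_fin] at h1
      have h2 : (1 : ℝ) < 2 ^ (n + 1) := one_lt_pow₀ (by norm_num) (by omega)
      linarith
    · rw [add_sub_cancel_left]
      exact M.smul_mem s hd
  have hs : 0 ≤ |C| / d j := by positivity
  have h1 := hC _ (hmem _ hs)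
  have h2 := PiLp.norm_apply_le (x0 + (|C| / d j) • d) j
  have h3 : (x0 + (|C| / d j) • d) j = 2 + |C| := by
    simp only [PiLp.add_apply, PiLp.smul_apply, smul_eq_mul, hx0]
    field_simp
  rw [h3, Real.norm_eq_abs] at h2
  have h4 := le_abs_self (2 + |C|)
  have h5 := le_abs_self C
  linarith

/-- the linear map `y ↦ (u_{τ k} / u_k · y_{τ k})_k` -/
noncomputable def sig {n : ℕ} (u : E n) (τ : Equiv.Perm (Fin (n + 1))) : E n →ₗ[ℝ] E n where
  toFun y := WithLp.toLp 2 (fun k => u (τ k) / u k * y (τ k))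
  map_add' y z := by
    ext k
    simp only [PiLp.add_apply]
    ring
  map_smul' c y := by
    ext k
    simp only [PiLp.smul_apply, smul_eq_mul, RingHom.id_apply]
    ring

theorem sig_apply {n : ℕ} (u : E n) (τ : Equiv.Perm (Fin (n + 1))) (y : E n) (k : Fin (n + 1)) :
    sig u τ y k = u (τ k) / u k * y (τ k) := rfl

theorem sig_sig {n : ℕ} {u : E n} (hu : ∀ k, u k ≠ 0) {τ : Equiv.Perm (Fin (n + 1))}
    (hτ : ∀ k, τ (τ k) = k) (y : E n) : sig u τ (sig u τ y) = y := by
  ext k
  rw [sig_apply, sig_apply, hτ]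
  have := hu k
  have := hu (τ k)
  field_simp

theorem inner_sig {n : ℕ} {u : E n} (hu : ∀ k, u k ≠ 0) (τ : Equiv.Perm (Fin (n + 1)))
    (y : E n) : ⟪u, sig u τ y⟫_ℝ = ⟪u, y⟫_ℝ := by
  rw [inner_sum, inner_sum, ← Equiv.sum_comp τ (fun k => u k * y k)]
  refine Finset.sum_congr rfl fun k _ => ?_
  rw [sig_apply]
  have := hu k
  field_simp

theorem sig_mem {n : ℕ} {u : E n} (hpos : ∀ i j, 0 < u i * u j) (τ : Equiv.Perm (Fin (n + 1)))
    {y : E n} (hy : y ∈ T n) : sig u τ y ∈ T n := by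
  have hu : ∀ k, u k ≠ 0 := fun k h => by
    have := hpos k k
    rw [h] at this
    simp at this
  refine ⟨fun k => ?_, ?_⟩
  · rw [sig_apply]
    refine mul_pos ?_ (hy.1 _)
    have h := hpos (τ k) k
    have hk : 0 < u k * u k := hpos k k
    have : u (τ k) / u k = (u (τ k) * u k) / (u k * u k) := by
      have := hu k
      field_simp
    rw [this]
    exact div_pos h hk
  · have e : ∏ k, sig u τ y k = ∏ k, y k := by
      simp only [sig_apply]
      rw [Finset.prod_mul_distrib, Finset.prod_div_distrib, Equiv.prod_comp τ (fun k => u k),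
        Equiv.prod_comp τ (fun k => y k), div_self, one_mul]
      exact Finset.prod_ne_zero_iff.2 fun k _ => hu k
    rw [e]
    exact hy.2

theorem det_sq {V : Type*} [AddCommGroup V] [Module ℝ V] (f : V →ₗ[ℝ] V)
    (h : ∀ x, f (f x) = x) : |LinearMap.det f| = 1 := by
  have h1 : f * f = 1 := by
    ext x
    exact h x
  have h2 : LinearMap.det f * LinearMap.det f = 1 := by
    rw [← map_mul, h1, map_one]
  rw [← abs_mul_abs_self] at h2
  nlinarith [abs_nonneg (LinearMap.det f)]

/-- an affine involution of a finite dimensional space preserves Haar measure -/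
theorem mp_involution {V : Type*} [NormedAddCommGroup V] [NormedSpace ℝ V]
    [MeasurableSpace V] [BorelSpace V] [FiniteDimensional ℝ V] (ν : Measure V)
    [ν.IsAddHaarMeasure] (f : V →ₗ[ℝ] V) (h : ∀ x, f (f x) = x) (a : V) :
    MeasurePreserving (fun z => a + f z) ν ν := by
  have hd := det_sq f h
  have hd0 : LinearMap.det f ≠ 0 := by
    intro h0
    rw [h0] at hd
    simp at hd
  have h1 : MeasurePreserving f ν ν := by
    refine ⟨f.continuous_of_finiteDimensional.measurable, ?_⟩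
    rw [Measure.map_linearMap_addHaar_eq_smul_addHaar ν hd0, abs_inv, hd]
    simp
  exact (measurePreserving_add_left ν a).comp h1

theorem centroid_fixed {n : ℕ} {M : Submodule ℝ (E n)} (hM : finrank ℝ M = n) {u : E n}
    (hu : ∀ y, y ∈ M ↔ ⟪u, y⟫_ℝ = 0) (hpos : ∀ i j, 0 < u i * u j)
    {τ : Equiv.Perm (Fin (n + 1))} (hτ : ∀ k, τ (τ k) = k) (x : E n) :
    sig u τ (centroid (sect (T n) M x)) = centroid (sect (T n) M x) := by
  have hu0 : ∀ k, u k ≠ 0 := fun k h => by
    have := hpos k k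
    rw [h] at this
    simp at this
  have hss := sig_sig hu0 hτ
  set S := sect (T n) M x with hS
  -- the set is invariant
  have hmemM : ∀ y : E n, sig u τ y ∈ M ↔ y ∈ M := fun y => by
    rw [hu, hu, inner_sig hu0]
  have hdiff : ∀ y : E n, sig u τ y - y ∈ M := fun y => by
    rw [hu, inner_sub_right, inner_sig hu0, sub_self]
  have hSfwd : ∀ y, y ∈ S → sig u τ y ∈ S := by
    rintro y ⟨h1, h2⟩
    refine ⟨sig_mem hpos τ h1, ?_⟩
    have : sig u τ y - x = (sig u τ y - y) + (y - x) := by abel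
    rw [this]
    exact M.add_mem (hdiff y) h2
  have hSiff : ∀ y, sig u τ y ∈ S ↔ y ∈ S := by
    intro y
    refine ⟨fun h => ?_, hSfwd y⟩
    have := hSfwd _ h
    rwa [hss] at this
  -- measurability of S
  have hMcl : IsClosed (M : Set (E n)) := M.closed_of_finiteDimensional
  have hSm : MeasurableSet S := by
    have e : S = T n ∩ (fun y => y - x) ⁻¹' (M : Set (E n)) := by
      ext y; rfl
    rw [e]
    exact (isOpen_T n).measurableSet.inter
      ((hMcl.preimage (by fun_prop)).measurableSet)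
  -- the parametrisation
  set ν : Measure M := μH[(n : ℝ)] with hν
  have hhaar : ν.IsAddHaarMeasure := by
    have := MeasureTheory.isAddHaarMeasure_hausdorffMeasure (E := M)
    rw [hM] at this
    exact this
  set ι : M → E n := fun z => x + z with hι
  have hiso : Isometry ι := by
    apply Isometry.of_dist_eq
    intro a b
    simp only [hι, dist_add_left]
    rfl
  have hιm : Measurable ι := hiso.continuous.measurable
  have hrange : Set.range ι = (fun y => y - x) ⁻¹' (M : Set (E n)) := by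
    ext y
    simp only [mem_range, mem_preimage, SetLike.mem_coe, hι]
    constructor
    · rintro ⟨z, rfl⟩
      simp
    · intro h
      exact ⟨⟨y - x, h⟩, by simp⟩
  have hSr : S ⊆ Set.range ι := by
    rw [hrange]
    exact fun y hy => hy.2
  have hmap : Measure.map ι ν = (μH[(n : ℝ)]).restrict (Set.range ι) :=
    hiso.map_hausdorffMeasure (Or.inl (by positivity))
  have hrest : (μH[(n : ℝ)]).restrict S = Measure.map ι (ν.restrict (ι ⁻¹' S)) := by
    rw [← Measure.restrict_map hιm hSm, hmap, Measure.restrict_restrict hSm,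
      inter_eq_self_of_subset_left hSr]
  -- the induced map of M
  set σM : M →ₗ[ℝ] M := (sig u τ).restrict (fun y hy => (hmemM y).2 hy) with hσM
  have hσM2 : ∀ z, σM (σM z) = z := by
    intro z
    apply Subtype.ext
    exact hss z
  set a : M := ⟨sig u τ x - x, hdiff x⟩ with ha
  have hmp := mp_involution ν σM hσM2 a
  have hcomm : ∀ z, sig u τ (ι z) = ι (a + σM z) := by
    intro z
    have : ((σM z : M) : E n) = sig u τ z := rfl
    simp only [hι, map_add, Submodule.coe_add, this, ha]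
    abel
  have hpre : (fun z => a + σM z) ⁻¹' (ι ⁻¹' S) = ι ⁻¹' S := by
    ext z
    simp only [mem_preimage]
    rw [← hcomm, hSiff]
  have hmp' : MeasurePreserving (fun z => a + σM z) (ν.restrict (ι ⁻¹' S))
      (ν.restrict (ι ⁻¹' S)) := by
    have := hmp.restrict_preimage (hιm hSm)
    rwa [hpre] at this
  have hsigm : Measurable (sig u τ) := (sig u τ).continuous_of_finiteDimensional.measurable
  have hinv : Measure.map (sig u τ) ((μH[(n : ℝ)]).restrict S) = (μH[(n : ℝ)]).restrict S := by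
    rw [hrest, Measure.map_map hsigm hιm]
    have : (sig u τ) ∘ ι = ι ∘ (fun z => a + σM z) := by
      funext z
      exact hcomm z
    rw [this, ← Measure.map_map hιm hmp'.measurable, hmp'.map_eq]
  -- the equivalence
  set σe : E n ≃L[ℝ] E n :=
    (LinearEquiv.ofInvolutive (sig u τ) hss).toContinuousLinearEquiv with hσe
  have hσe' : ∀ y, σe y = sig u τ y := fun y => rfl
  have hint : sig u τ (∫ y in S, y ∂μH[(n : ℝ)]) = ∫ y in S, y ∂μH[(n : ℝ)] := by
    rw [← hσe', ← ContinuousLinearEquiv.integral_comp_comm]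
    calc ∫ y in S, σe y ∂μH[(n : ℝ)]
        = ∫ y, (fun w => w) (sig u τ y) ∂((μH[(n : ℝ)]).restrict S) := rfl
      _ = ∫ w, (fun w => w) w ∂(Measure.map (sig u τ) ((μH[(n : ℝ)]).restrict S)) := by
          rw [integral_map hsigm.aemeasurable]
          exact measurable_id.aestronglyMeasurable
      _ = _ := by rw [hinv]
  unfold centroid
  rw [average_eq, map_smul, hint]

theorem sccp (n : ℕ) : SCCP (T n) := by
  intro M hM hbd
  have hMo : finrank ℝ Mᗮ = 1 := by
    have := Submodule.finrank_add_finrank_orthogonal M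
    rw [finrank_euclideanSpace_fin] at this
    omega
  obtain ⟨⟨u, huM⟩, hune, hspan⟩ := finrank_eq_one_iff'.1 hMo
  have hu : ∀ y, y ∈ M ↔ ⟪u, y⟫_ℝ = 0 := by
    intro y
    constructor
    · intro hy
      exact Submodule.inner_left_of_mem_orthogonal hy huM
    · intro hy
      rw [← Submodule.orthogonal_orthogonal M, Submodule.mem_orthogonal]
      intro v hv
      obtain ⟨c, hc⟩ := hspan ⟨v, hv⟩
      have hc' : c • u = v := congrArg Subtype.val hc
      rw [← hc', inner_smul_left, hy, mul_zero]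
  have hu0 : ∀ i, u i ≠ 0 := by
    intro i hi
    have h1 : EuclideanSpace.single i (1 : ℝ) ∈ M := by
      rw [hu, EuclideanSpace.inner_single_right]
      simp [hi]
    have h2 := no_nonneg hbd h1 (fun k => by
      rw [PiLp.single_apply]
      split_ifs <;> norm_num)
    have h3 := congrArg (fun v : E n => v i) h2
    simp at h3
  have hpos : ∀ i j, 0 < u i * u j := by
    intro i j
    by_contra hneg
    rw [not_lt] at hneg
    have hij : i ≠ j := by
      rintro rfl
      have := mul_self_pos.2 (hu0 i)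
      linarith
    set d : E n := EuclideanSpace.single i |u j| + EuclideanSpace.single j |u i| with hd
    have h1 : d ∈ M := by
      rw [hu, hd, inner_add_right, EuclideanSpace.inner_single_right,
        EuclideanSpace.inner_single_right]
      simp only [conj_trivial]
      rcases lt_or_gt_of_ne (hu0 i) with hi | hi
      · have hj : 0 ≤ u j := by
          by_contra h
          rw [not_le] at h
          have := mul_pos_of_neg_of_neg hi h
          linarith
        rw [abs_of_neg hi, abs_of_nonneg hj]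
        ring
      · have hj : u j ≤ 0 := by
          by_contra h
          rw [not_le] at h
          have := mul_pos hi h
          linarith
        rw [abs_of_pos hi, abs_of_nonpos hj]
        ring
    have h2 := no_nonneg hbd h1 (fun k => by
      rw [hd, PiLp.add_apply, PiLp.single_apply, PiLp.single_apply]
      split_ifs <;> positivity)
    have h3 := congrArg (fun v : E n => v i) h2
    simp [hd, hij] at h3
    exact hu0 j h3
  set w : E n := WithLp.toLp 2 (fun k => (u k)⁻¹) with hw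
  have hw0 : w ≠ 0 := by
    intro h
    have := congrArg (fun v : E n => v 0) h
    simp [hw] at this
    exact hu0 0 this
  refine ⟨(Submodule.span ℝ {w}).toAffineSubspace, ?_, ?_⟩
  · rw [Submodule.toAffineSubspace_direction]
    exact finrank_span_singleton hw0
  · intro x _
    set c := centroid (sect (T n) M x) with hc
    have hfix : ∀ j, u j * c j = u 0 * c 0 := by
      intro j
      have h := centroid_fixed hM hu hpos (τ := Equiv.swap 0 j)
        (fun k => Equiv.swap_apply_self 0 j k) x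
      have h0 := congrArg (fun v : E n => v 0) h
      simp only [sig_apply, Equiv.swap_apply_left] at h0
      rw [← hc] at h0
      have := hu0 0
      field_simp at h0
      linarith
    rw [Submodule.mem_toAffineSubspace, Submodule.mem_span_singleton]
    refine ⟨u 0 * c 0, ?_⟩
    ext k
    rw [PiLp.smul_apply, smul_eq_mul, ← hfix k, hw]
    have := hu0 k
    simp only []
    field_simp

/-! ### The boundary is not a quadric -/

theorem coeffs {α β γ δ ε ζ : ℝ} (h : ∀ s : ℝ, 0 < s →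
    α * s ^ 2 + β * s⁻¹ + γ * s⁻¹ ^ 4 + δ * s + ε * s⁻¹ ^ 2 + ζ = 0) :
    α = 0 ∧ δ = 0 ∧ ζ = 0 := by
  have h1 := h 1 (by norm_num)
  have h2 := h 2 (by norm_num)
  have h3 := h 4 (by norm_num)
  have h4 := h 8 (by norm_num)
  have h5 := h (1 / 2) (by norm_num)
  have h6 := h (1 / 4) (by norm_num)
  norm_num at h1 h2 h3 h4 h5 h6
  refine ⟨?_, ?_, ?_⟩ <;> linarith

/-- base point of the curve -/
noncomputable def cp (m : ℕ) : E (m + 2) :=
  WithLp.toLp 2 (Fin.cons 0 (Fin.cons 0 (Fin.cons 0 fun _ => 1)))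

/-- first direction -/
noncomputable def cd (m : ℕ) : E (m + 2) :=
  WithLp.toLp 2 (Fin.cons 1 (Fin.cons 1 (Fin.cons 0 fun _ => 0)))

/-- second direction -/
noncomputable def ce (m : ℕ) : E (m + 2) :=
  WithLp.toLp 2 (Fin.cons 0 (Fin.cons 0 (Fin.cons 1 fun _ => 0)))

theorem curve_mem (m : ℕ) {s : ℝ} (hs : 0 < s) :
    cp m + s • cd m + s⁻¹ ^ 2 • ce m ∈ frontier (T (m + 2)) := by
  rw [frontier_T]
  have h0 : (cp m + s • cd m + s⁻¹ ^ 2 • ce m) 0 = s := by
    simp [cp, cd, ce]
  have h1 : (cp m + s • cd m + s⁻¹ ^ 2 • ce m) (Fin.succ 0) = s := by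
    simp only [cp, cd, ce, PiLp.add_apply, PiLp.smul_apply, smul_eq_mul, Fin.cons_succ,
      Fin.cons_zero]
    ring
  have h2 : (cp m + s • cd m + s⁻¹ ^ 2 • ce m) (Fin.succ (Fin.succ 0)) = s⁻¹ ^ 2 := by
    simp only [cp, cd, ce, PiLp.add_apply, PiLp.smul_apply, smul_eq_mul, Fin.cons_succ,
      Fin.cons_zero]
    ring
  have h3 : ∀ k : Fin m,
      (cp m + s • cd m + s⁻¹ ^ 2 • ce m) (Fin.succ (Fin.succ (Fin.succ k))) = 1 := by
    intro k
    simp only [cp, cd, ce, PiLp.add_apply, PiLp.smul_apply, smul_eq_mul, Fin.cons_succ]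
    ring
  refine ⟨fun i => ?_, ?_⟩
  · refine Fin.cases ?_ (fun i => ?_) i
    · rw [h0]; exact hs
    · refine Fin.cases ?_ (fun i => ?_) i
      · rw [h1]; exact hs
      · refine Fin.cases ?_ (fun i => ?_) i
        · rw [h2]; positivity
        · rw [h3]; norm_num
  · rw [Fin.prod_univ_succ, Fin.prod_univ_succ, Fin.prod_univ_succ, h0, h1, h2]
    simp only [h3, Finset.prod_const_one]
    field_simp

theorem pull {m : ℕ} {Q : Set (E (m + 2))} (h : IsAffineImage (frontier (T (m + 2))) Q) :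
    ∃ Y d e : E (m + 2), d ≠ 0 ∧ ∀ s : ℝ, 0 < s → Y + s • d + s⁻¹ ^ 2 • e ∈ Q := by
  obtain ⟨A, hA⟩ := h
  refine ⟨A.symm (cp m), A.symm.linear (cd m), A.symm.linear (ce m), ?_, ?_⟩
  · intro h0
    rw [LinearEquiv.map_eq_zero_iff] at h0
    have := congrArg (fun v : E (m + 2) => v 0) h0
    simp [cd] at this
  · intro s hs
    have h1 := curve_mem m hs
    rw [hA] at h1
    obtain ⟨q, hq, hqe⟩ := h1
    have h2 : q = A.symm.linear (s • cd m + s⁻¹ ^ 2 • ce m) + A.symm (cp m) := by
      have h3 := A.symm.map_vadd (cp m) (s • cd m + s⁻¹ ^ 2 • ce m)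
      rw [vadd_eq_add, vadd_eq_add] at h3
      rw [← h3, ← A.symm_apply_apply q, hqe]
      congr 1
      abel
    have h4 : A.symm (cp m) + s • A.symm.linear (cd m) + s⁻¹ ^ 2 • A.symm.linear (ce m) = q := by
      rw [h2, map_add, map_smul, map_smul]
      abel
    rw [h4]
    exact hq

theorem expand {ι : Type*} (F : Finset ι) (Y d e : ι → ℝ) (s : ℝ) (hs : s ≠ 0) :
    ∑ i ∈ F, (Y i + s * d i + s⁻¹ ^ 2 * e i) ^ 2 =
      (∑ i ∈ F, d i ^ 2) * s ^ 2 + (2 * ∑ i ∈ F, d i * e i) * s⁻¹
        + (∑ i ∈ F, e i ^ 2) * s⁻¹ ^ 4 + (2 * ∑ i ∈ F, Y i * d i) * s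
        + (2 * ∑ i ∈ F, Y i * e i) * s⁻¹ ^ 2 + ∑ i ∈ F, Y i ^ 2 := by
  simp only [Finset.mul_sum, Finset.sum_mul]
  rw [← Finset.sum_add_distrib, ← Finset.sum_add_distrib, ← Finset.sum_add_distrib,
    ← Finset.sum_add_distrib, ← Finset.sum_add_distrib]
  refine Finset.sum_congr rfl fun i _ => ?_
  field_simp
  ring

theorem eq_zero_of_parts {n : ℕ} {d : E n} (h1 : ∑ i : Fin n, d i.castSucc ^ 2 = 0)
    (h2 : d (Fin.last n) = 0) : d = 0 := by
  ext i
  refine Fin.lastCases ?_ (fun i => ?_) i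
  · exact h2
  · have := (Finset.sum_eq_zero_iff_of_nonneg (fun i _ => sq_nonneg (d i.castSucc))).1 h1 i
      (Finset.mem_univ i)
    simpa using this

theorem not_sphere (m : ℕ) : ¬ IsAffineImage (frontier (T (m + 2))) (stdSphere (m + 2)) := by
  intro h
  obtain ⟨Y, d, e, hd, hQ⟩ := pull h
  have h1 : ∀ s : ℝ, 0 < s → (∑ i, d i ^ 2) * s ^ 2 + (2 * ∑ i, d i * e i) * s⁻¹
        + (∑ i, e i ^ 2) * s⁻¹ ^ 4 + (2 * ∑ i, Y i * d i) * s
        + (2 * ∑ i, Y i * e i) * s⁻¹ ^ 2 + (∑ i, Y i ^ 2 - 1) = 0 := by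
    intro s hs
    have h2 : ∑ i, (Y i + s * d i + s⁻¹ ^ 2 * e i) ^ 2 = 1 := hQ s hs
    rw [expand _ _ _ _ _ hs.ne'] at h2
    linarith
  obtain ⟨h2, _, _⟩ := coeffs h1
  apply hd
  ext i
  have := (Finset.sum_eq_zero_iff_of_nonneg (fun i _ => sq_nonneg (d i))).1 h2 i
    (Finset.mem_univ i)
  simpa using this

theorem not_paraboloid (m : ℕ) :
    ¬ IsAffineImage (frontier (T (m + 2))) (stdParaboloid (m + 2)) := by
  intro h
  obtain ⟨Y, d, e, hd, hQ⟩ := pull h
  have h1 : ∀ s : ℝ, 0 < s → (∑ i : Fin (m + 2), d i.castSucc ^ 2) * s ^ 2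
        + (2 * ∑ i : Fin (m + 2), d i.castSucc * e i.castSucc) * s⁻¹
        + (∑ i : Fin (m + 2), e i.castSucc ^ 2) * s⁻¹ ^ 4
        + (2 * ∑ i : Fin (m + 2), Y i.castSucc * d i.castSucc - d (Fin.last _)) * s
        + (2 * ∑ i : Fin (m + 2), Y i.castSucc * e i.castSucc - e (Fin.last _)) * s⁻¹ ^ 2
        + (∑ i : Fin (m + 2), Y i.castSucc ^ 2 - Y (Fin.last _)) = 0 := by
    intro s hs
    have h2 : Y (Fin.last _) + s * d (Fin.last _) + s⁻¹ ^ 2 * e (Fin.last _) =
      ∑ i : Fin (m + 2), (Y i.castSucc + s * d i.castSucc + s⁻¹ ^ 2 * e i.castSucc) ^ 2 := hQ s hs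
    rw [expand _ _ _ _ _ hs.ne'] at h2
    linarith
  obtain ⟨h2, h3, _⟩ := coeffs h1
  apply hd
  refine eq_zero_of_parts h2 ?_
  have h4 : ∀ i : Fin (m + 2), d i.castSucc = 0 := by
    intro i
    have := (Finset.sum_eq_zero_iff_of_nonneg (fun i _ => sq_nonneg (d (Fin.castSucc i)))).1 h2 i
      (Finset.mem_univ i)
    simpa using this
  simp only [h4, mul_zero, Finset.sum_const_zero, zero_sub, neg_eq_zero] at h3
  exact h3

theorem not_sheet (m : ℕ) : ¬ IsAffineImage (frontier (T (m + 2))) (stdSheet (m + 2)) := by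
  intro h
  obtain ⟨Y, d, e, hd, hQ⟩ := pull h
  have h1 : ∀ s : ℝ, 0 < s → (∑ i : Fin (m + 2), d i.castSucc ^ 2 - d (Fin.last _) ^ 2) * s ^ 2
        + (2 * ∑ i : Fin (m + 2), d i.castSucc * e i.castSucc
            - 2 * (d (Fin.last _) * e (Fin.last _))) * s⁻¹
        + (∑ i : Fin (m + 2), e i.castSucc ^ 2 - e (Fin.last _) ^ 2) * s⁻¹ ^ 4
        + (2 * ∑ i : Fin (m + 2), Y i.castSucc * d i.castSucc
            - 2 * (Y (Fin.last _) * d (Fin.last _))) * s
        + (2 * ∑ i : Fin (m + 2), Y i.castSucc * e i.castSucc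
            - 2 * (Y (Fin.last _) * e (Fin.last _))) * s⁻¹ ^ 2
        + (∑ i : Fin (m + 2), Y i.castSucc ^ 2 - Y (Fin.last _) ^ 2 + 1) = 0 := by
    intro s hs
    have h2 : (Y (Fin.last _) + s * d (Fin.last _) + s⁻¹ ^ 2 * e (Fin.last _)) ^ 2 =
      1 + ∑ i : Fin (m + 2), (Y i.castSucc + s * d i.castSucc + s⁻¹ ^ 2 * e i.castSucc) ^ 2 :=
      (hQ s hs).2
    rw [expand _ _ _ _ _ hs.ne'] at h2
    have h3 : (Y (Fin.last _) + s * d (Fin.last _) + s⁻¹ ^ 2 * e (Fin.last _)) ^ 2 =
        d (Fin.last _) ^ 2 * s ^ 2 + 2 * (d (Fin.last _) * e (Fin.last _)) * s⁻¹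
        + e (Fin.last _) ^ 2 * s⁻¹ ^ 4 + 2 * (Y (Fin.last _) * d (Fin.last _)) * s
        + 2 * (Y (Fin.last _) * e (Fin.last _)) * s⁻¹ ^ 2 + Y (Fin.last _) ^ 2 := by
      field_simp
      ring
    rw [h3] at h2
    linarith
  obtain ⟨h2, h3, h4⟩ := coeffs h1
  have hcs := Finset.sum_mul_sq_le_sq_mul_sq (Finset.univ : Finset (Fin (m + 2)))
    (fun i => Y i.castSucc) (fun i => d i.castSucc)
  have e1 : ∑ i : Fin (m + 2), d i.castSucc ^ 2 = d (Fin.last _) ^ 2 := by linarith
  have e2 : ∑ i : Fin (m + 2), Y i.castSucc * d i.castSucc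
      = Y (Fin.last _) * d (Fin.last _) := by linarith
  have e3 : ∑ i : Fin (m + 2), Y i.castSucc ^ 2 = Y (Fin.last _) ^ 2 - 1 := by linarith
  rw [e1, e2, e3] at hcs
  have hl : d (Fin.last _) ^ 2 = 0 := by
    nlinarith [sq_nonneg (d (Fin.last (m + 2)))]
  apply hd
  refine eq_zero_of_parts (by rw [e1, hl]) ?_
  simpa using hl

/-- **MP_d39bc3_gt, Q1 (full negative answer).** For every `n ≥ 2` there is a nonempty open convex
set `Ω ⊆ ℝ^{n+1}` with strictly convex closure and smooth boundary (the domain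
`{x | x_i > 0, ∏ x_i > 1}`) which has the section-centroid collinearity property although its
boundary is not an ellipsoid, not an elliptic paraboloid and not a sheet of a two-sheeted
hyperboloid. -/
theorem result (n : ℕ) (hn : 2 ≤ n) :
    ∃ Ω : Set (E n), IsOpen Ω ∧ Ω.Nonempty ∧ Convex ℝ Ω ∧ StrictConvex ℝ (closure Ω) ∧
      HasSmoothBoundary Ω ∧ SCCP Ω ∧
      frontier Ω = {x | (∀ i, 0 < x i) ∧ ∏ i, x i = 1} ∧
      ¬ IsAffineImage (frontier Ω) (stdSphere n) ∧
      ¬ IsAffineImage (frontier Ω) (stdParaboloid n) ∧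
      ¬ IsAffineImage (frontier Ω) (stdSheet n) := by
  obtain ⟨m, rfl⟩ : ∃ m, n = m + 2 := ⟨n - 2, by omega⟩
  refine ⟨T (m + 2), isOpen_T _, ?_, convex_T _, strictConvex_closure _, smoothBoundary _,
    sccp _, frontier_T _, not_sphere m, not_paraboloid m, not_sheet m⟩
  refine ⟨WithLp.toLp 2 (fun _ => (2 : ℝ)), fun k => by norm_num, ?_⟩
  have h2 : (1 : ℝ) < 2 ^ (m + 2 + 1) := one_lt_pow₀ (by norm_num) (by omega)
  simpa using h2

end Pool.Agent.Results.MP_d39bc3_gt.TiteicaDomain
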